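import Pool.Agent.Helper93.ML.Defs

/-!
# The free group of rank four satisfies the invariant (module Base of MP_021201_al)
-/

namespace Pool.Agent.Helper37.ML

open Pool.Agent.Helper93.ML

abbrev F4 := FreeGroup (Fin 4)

/-- the standard marking -/
def FM : Mark F4 where
  s x := FreeGroup.mk [x]
  s_inv x := by
    rw [FreeGroup.inv_mk]
    rfl
  gen := by
    rw [eq_top_iff, ← FreeGroup.closure_range_of (Fin 4), Subgroup.closure_le]
    rintro _ ⟨i, rfl⟩
    exact Subgroup.subset_closure ⟨(i, true), rfl⟩

theorem ev_eq (w : List Ltr) : FM.ev w = FreeGroup.mk w := by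
  induction w with
  | nil => rfl
  | cons a w ih =>
    have h : FM.ev (a :: w) = FM.s a * FM.ev w := by simp [Mark.ev]
    rw [h, ih]
    exact FreeGroup.mul_mk

theorem len_eq (g : F4) : FM.len g = FreeGroup.norm g := by
  unfold Mark.len
  apply le_antisymm
  · refine Nat.sInf_le ⟨g.toWord, ?_, rfl⟩
    rw [ev_eq, FreeGroup.mk_toWord]
  · refine le_csInf ⟨g.toWord.length, g.toWord, ?_, rfl⟩ ?_
    · rw [ev_eq, FreeGroup.mk_toWord]
    · rintro n ⟨w, rfl, rfl⟩
      rw [ev_eq]
      exact FreeGroup.norm_mk_le

theorem red_iff (z : List Ltr) : Red z ↔ FreeGroup.IsReduced z := by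
  unfold Red FreeGroup.IsReduced
  constructor
  · intro h
    refine h.imp fun x y hxy h1 => ?_
    by_contra h2
    apply hxy
    unfold inv1
    ext
    · simp [h1]
    · revert h2
      cases x.2 <;> cases y.2 <;> simp
  · intro h
    refine h.imp fun x y hxy h1 => ?_
    rw [h1] at hxy
    have := hxy rfl
    simp [inv1] at this

theorem norm_red {z : List Ltr} (h : FreeGroup.IsReduced z) :
    FreeGroup.norm (FreeGroup.mk z) = z.length := by
  unfold FreeGroup.norm
  rw [FreeGroup.toWord_mk, h.reduce_eq]

/-- longest common initial segment -/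
def lcp : List Ltr → List Ltr → ℕ
  | [], _ => 0
  | _ :: _, [] => 0
  | a :: u, b :: v => if a = b then lcp u v + 1 else 0

theorem lcp_min (u v w : List Ltr) : min (lcp u v) (lcp v w) ≤ lcp u w := by
  induction u generalizing v w with
  | nil => simp [lcp]
  | cons a u ih =>
    cases v with
    | nil => simp [lcp]
    | cons b v =>
      cases w with
      | nil => simp [lcp]
      | cons c w =>
        have := ih v w
        simp only [lcp]
        by_cases h1 : a = b
        · by_cases h2 : b = c
          · subst h1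
            subst h2
            simp only [if_true]
            omega
          · simp [h2]
        · simp [h1]

theorem red_invRev {u : List Ltr} (h : FreeGroup.IsReduced u) :
    FreeGroup.IsReduced (FreeGroup.invRev u) := by
  apply FreeGroup.IsReduced.of_reduce_eq
  rw [FreeGroup.reduce_invRev, h.reduce_eq]

theorem norm_lcp (u v : List Ltr) (hu : FreeGroup.IsReduced u) (hv : FreeGroup.IsReduced v) :
    FreeGroup.norm ((FreeGroup.mk u)⁻¹ * FreeGroup.mk v) + 2 * lcp u v = u.length + v.length := by
  induction u generalizing v with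
  | nil =>
    have h1 : (FreeGroup.mk ([] : List Ltr)) = 1 := rfl
    rw [h1, inv_one, one_mul, norm_red hv]
    simp [lcp]
  | cons a u ih =>
    cases v with
    | nil =>
      have h1 : (FreeGroup.mk ([] : List Ltr)) = 1 := rfl
      rw [h1, mul_one, FreeGroup.norm_inv_eq, norm_red hu]
      simp [lcp]
    | cons b v =>
      by_cases hab : a = b
      · subst hab
        have h1 : ∀ w : List Ltr, FreeGroup.mk (a :: w) = FreeGroup.mk [a] * FreeGroup.mk w :=
          fun w => (FreeGroup.mul_mk (L₁ := [a]) (L₂ := w)).symm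
        have h2 : (FreeGroup.mk (a :: u))⁻¹ * FreeGroup.mk (a :: v) =
            (FreeGroup.mk u)⁻¹ * FreeGroup.mk v := by
          rw [h1 u, h1 v]
          group
        have h3 := ih v (List.IsChain.tail hu) (List.IsChain.tail hv)
        rw [h2]
        simp only [lcp, if_true, List.length_cons]
        omega
      · have h1 : (FreeGroup.mk (a :: u))⁻¹ * FreeGroup.mk (b :: v) =
            FreeGroup.mk (FreeGroup.invRev (a :: u) ++ b :: v) := by
          rw [FreeGroup.inv_mk, FreeGroup.mul_mk]
        have h2 : FreeGroup.IsReduced (FreeGroup.invRev (a :: u) ++ b :: v) := by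
          unfold FreeGroup.IsReduced
          rw [List.isChain_append]
          refine ⟨red_invRev hu, hv, ?_⟩
          intro x hx y hy
          rw [FreeGroup.invRev_cons] at hx
          have hx' : x = inv1 a := by
            simp [FreeGroup.invRev] at hx
            rw [← hx]
            rfl
          have hy' : y = b := by simpa using hy.symm
          subst hy'
          rw [hx']
          intro h3
          by_contra h4
          apply hab
          simp only [inv1] at h3 h4
          ext
          · simp [h3]
          · revert h4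
            cases a.2 <;> cases y.2 <;> simp
        rw [h1, norm_red h2]
        simp [lcp, hab]

/-- Gromov product formula in the free group -/
theorem d_lcp (w x y : F4) : FM.d x y + 2 * lcp (w⁻¹ * x).toWord (w⁻¹ * y).toWord =
    FM.d w x + FM.d w y := by
  have h := norm_lcp (w⁻¹ * x).toWord (w⁻¹ * y).toWord FreeGroup.isReduced_toWord
    FreeGroup.isReduced_toWord
  rw [FreeGroup.mk_toWord, FreeGroup.mk_toWord] at h
  have e : (w⁻¹ * x)⁻¹ * (w⁻¹ * y) = x⁻¹ * y := by group
  rw [e] at h
  unfold Mark.d
  rw [len_eq, len_eq, len_eq]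
  exact h

theorem d_symm (x y : F4) : FM.d x y = FM.d y x := by
  unfold Mark.d
  rw [len_eq, len_eq, ← FreeGroup.norm_inv_eq]
  congr 1
  group

theorem d_tri (x y z : F4) : FM.d x z ≤ FM.d x y + FM.d y z := by
  unfold Mark.d
  rw [len_eq, len_eq, len_eq]
  have e : x⁻¹ * z = (x⁻¹ * y) * (y⁻¹ * z) := by group
  rw [e]
  exact FreeGroup.norm_mul_le _ _

theorem hyp0 : Hyp FM.d 0 := by
  intro x y z w
  have h1 := d_lcp w x z
  have h2 := d_lcp w x y
  have h3 := d_lcp w y z
  have h4 := lcp_min (w⁻¹ * x).toWord (w⁻¹ * y).toWord (w⁻¹ * z).toWord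
  have e1 := d_symm w x
  have e2 := d_symm w y
  have e3 := d_symm w z
  omega

theorem geod0 (z : List Ltr) (h : Clean [] z) : FM.len (FM.ev z) = z.length := by
  rw [len_eq, ev_eq]
  exact norm_red ((red_iff z).1 h.1)

/-- geodesic words are reduced -/
theorem red_of_geod {z : List Ltr} (h : FreeGroup.norm (FreeGroup.mk z) = z.length) :
    FreeGroup.reduce z = z := by
  unfold FreeGroup.norm at h
  rw [FreeGroup.toWord_mk] at h
  have h1 : List.Sublist (FreeGroup.reduce z) z := FreeGroup.reduce.red.sublist
  exact h1.eq_of_length h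

/-- points on a geodesic between `P` and `P * ev z` -/
theorem unique_pt {z : List Ltr} (hz : FM.len (FM.ev z) = z.length) (P X : F4)
    (h : FM.d P X + FM.d X (P * FM.ev z) = z.length) :
    ∃ j ≤ z.length, X = P * FM.ev (z.take j) := by
  set u := (P⁻¹ * X).toWord with hu
  set v := (X⁻¹ * (P * FM.ev z)).toWord with hv
  have h1 : FM.d P X = u.length := by
    unfold Mark.d
    rw [len_eq]
    rfl
  have h2 : FM.d X (P * FM.ev z) = v.length := by
    unfold Mark.d
    rw [len_eq]
    rfl
  rw [len_eq, ev_eq] at hz
  have h3 : FreeGroup.mk (u ++ v) = FreeGroup.mk z := by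
    rw [← FreeGroup.mul_mk, hu, hv, FreeGroup.mk_toWord, FreeGroup.mk_toWord, ev_eq]
    group
  have h4 : FreeGroup.norm (FreeGroup.mk (u ++ v)) = (u ++ v).length := by
    rw [h3, hz, List.length_append]
    omega
  have h5 : u ++ v = z := by
    rw [← red_of_geod h4, ← red_of_geod hz, ← FreeGroup.toWord_mk, ← FreeGroup.toWord_mk, h3]
  refine ⟨u.length, ?_, ?_⟩
  · rw [← h5, List.length_append]
    omega
  · have h6 : z.take u.length = u := by rw [← h5, List.take_left]
    rw [h6, ev_eq, hu, FreeGroup.mk_toWord]
    group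

theorem rig0 : Rig FM [] := by
  intro D
  refine ⟨D + 1, ?_⟩
  intro z z' P P' hz hz' hP hQ i h1 h2
  set X := P * FM.ev (z.take i) with hX
  set Q := P * FM.ev z with hQd
  set Q' := P' * FM.ev z' with hQd'
  have hred := (red_iff z).1 hz.1
  have a1 : FM.d P X = i := by
    unfold Mark.d
    have e : P⁻¹ * X = FM.ev (z.take i) := by rw [hX]; group
    rw [e, len_eq, ev_eq, norm_red (List.IsChain.take hred i)]
    rw [List.length_take]
    omega
  have a2 : FM.d X Q = z.length - i := by
    unfold Mark.d
    have e : X⁻¹ * Q = FM.ev (z.drop i) := by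
      have e1 : FM.ev z = FM.ev (z.take i) * FM.ev (z.drop i) := by
        rw [ev_eq, ev_eq, ev_eq, FreeGroup.mul_mk, List.take_append_drop]
      rw [hX, hQd, e1]
      group
    rw [e, len_eq, ev_eq, norm_red (List.IsChain.drop hred i), List.length_drop]
  have a3 : FM.d P Q = z.length := by
    unfold Mark.d
    have e : P⁻¹ * Q = FM.ev z := by rw [hQd]; group
    rw [e]
    exact geod0 z hz
  have a4 : FM.d P' Q' = z'.length := by
    unfold Mark.d
    have e : P'⁻¹ * Q' = FM.ev z' := by rw [hQd']; group
    rw [e, hz']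
  refine unique_pt hz' P' X ?_
  rw [← hQd', ← a4]
  -- four point conditions
  have f1 := hyp0 P P' Q X
  have f2 := hyp0 P' Q' Q X
  have f3 := hyp0 P' Q Q' X
  have t1 := d_tri P P' X
  have t2 := d_tri X Q' Q
  have t3 := d_tri P' X Q'
  have s1 := d_symm P P'
  have s2 := d_symm Q Q'
  have s3 := d_symm X P'
  have s4 := d_symm X P
  have s5 := d_symm X Q
  have s6 := d_symm X Q'
  have s7 := d_symm P Q
  have s8 := d_symm P' Q'
  have s9 := d_symm P' Q
  omega

theorem stmtBase : StmtBase := by
  refine ⟨F4, inferInstance, FM, ?_⟩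
  exact ⟨by simp, hyp0, geod0, rig0⟩

end Pool.Agent.Helper37.ML
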